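import Mathlib
import Pool.Agent.Helper5.Core2.Defs

/-! Basic facts used for `CC_index`. -/

set_option autoImplicit false

namespace Pool.Agent.Helper38.Core2

open Subgroup Pool.Agent.Helper5.Core2

variable {G : Type*} [Group G]

/-- Two involutions in a cyclic group are equal. -/
theorem inv_unique [Finite G] {c a b : G} (ha : a ∈ zpowers c) (hb : b ∈ zpowers c)
    (ha2 : a ^ 2 = 1) (hb2 : b ^ 2 = 1) (ha1 : a ≠ 1) (hb1 : b ≠ 1) : a = b := by
  classical
  by_contra hab
  have : Fintype (zpowers c) := Fintype.ofFinite _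
  have h := IsCyclic.card_pow_eq_one_le (α := zpowers c) (n := 2) (by norm_num)
  have h3 : ({1, ⟨a, ha⟩, ⟨b, hb⟩} : Finset (zpowers c)) ⊆
      Finset.univ.filter (fun t : zpowers c => t ^ 2 = 1) := by
    intro t ht
    simp only [Finset.mem_insert, Finset.mem_singleton] at ht
    simp only [Finset.mem_filter, Finset.mem_univ, true_and]
    rcases ht with rfl | rfl | rfl
    · simp
    · ext; simpa using ha2
    · ext; simpa using hb2
  have h4 := Finset.card_le_card h3
  have h5 : ({1, ⟨a, ha⟩, ⟨b, hb⟩} : Finset (zpowers c)).card = 3 := by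
    rw [Finset.card_eq_three]
    refine ⟨1, ⟨a, ha⟩, ⟨b, hb⟩, ?_, ?_, ?_, rfl⟩
    · intro h; exact ha1 (by simpa using (congrArg Subtype.val h).symm)
    · intro h; exact hb1 (by simpa using (congrArg Subtype.val h).symm)
    · intro h; exact hab (by simpa using congrArg Subtype.val h)
  omega

/-- A nontrivial element of a 2-group has an involution among its powers. -/
theorem exists_inv (h2 : IsPGroup 2 G) {s : G} (hs : s ≠ 1) :
    ∃ t ∈ zpowers s, t ≠ 1 ∧ t ^ 2 = 1 := by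
  obtain ⟨k, hk⟩ := (IsPGroup.iff_orderOf.mp h2) s
  cases k with
  | zero => exact absurd (orderOf_eq_one_iff.mp (by simpa using hk)) hs
  | succ k =>
    refine ⟨s ^ (2 ^ k), npow_mem_zpowers s _, ?_, ?_⟩
    · intro h1
      have h3 := orderOf_dvd_of_pow_eq_one h1
      rw [hk] at h3
      have h4 := Nat.le_of_dvd (by positivity) h3
      have h5 : 2 ^ k < 2 ^ (k + 1) := Nat.pow_lt_pow_right (by norm_num) (Nat.lt_succ_self k)
      omega
    · rw [← pow_mul, ← pow_succ, ← hk, pow_orderOf_eq_one]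

theorem zpowers_two {z : G} (hz : z ^ 2 = 1) {a : G} (ha : a ∈ zpowers z) : a = 1 ∨ a = z := by
  obtain ⟨n, rfl⟩ := mem_zpowers_iff.mp ha
  rcases Int.even_or_odd' n with ⟨m, rfl | rfl⟩
  · left
    rw [zpow_mul, zpow_ofNat, hz, one_zpow]
  · right
    rw [zpow_add, zpow_mul, zpow_ofNat, hz, one_zpow, one_mul, zpow_one]

/-- The involution in the (normal) cyclic subgroup generated by a square is central. -/
theorem exists_om [Finite G] (h : IsC G) {g : G} (hg : g ^ 2 ≠ 1) :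
    ∃ t ∈ zpowers (g ^ 2), t ≠ 1 ∧ t ∈ Om G := by
  obtain ⟨t, ht, ht1, ht2⟩ := exists_inv h.two hg
  refine ⟨t, ht, ht1, ?_, ht2⟩
  rw [mem_center_iff]
  intro a
  have h1 : a * t * a⁻¹ ∈ zpowers (g ^ 2) := by
    obtain ⟨n, rfl⟩ := mem_zpowers_iff.mp ht
    rw [← conj_zpow]
    exact zpow_mem (h.F1 g a) n
  have h3 : a * t * a⁻¹ = t := by
    refine inv_unique h1 ht ?_ ht2 ?_ ht1
    · rw [conj_pow, ht2]; simp
    · intro h4
      apply ht1
      have : t = a⁻¹ * (a * t * a⁻¹) * a := by group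
      rw [this, h4]; group
  calc a * t = (a * t * a⁻¹) * a := by group
    _ = t * a := by rw [h3]

/-- A normal subgroup missing the involution of `zpowers (g ^ 2)` : commuting with `g ^ 2`
can be tested modulo it. -/
theorem comm_quot [Finite G] (h : IsC G) {g t : G} (ht : t ∈ zpowers (g ^ 2)) (ht1 : t ≠ 1)
    (ht2 : t ^ 2 = 1) (N : Subgroup G) [N.Normal] (hN : t ∉ N) (a : G) :
    (QuotientGroup.mk a : G ⧸ N) * (QuotientGroup.mk g : G ⧸ N) ^ 2 =
      (QuotientGroup.mk g : G ⧸ N) ^ 2 * (QuotientGroup.mk a : G ⧸ N) ↔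
    a * g ^ 2 = g ^ 2 * a := by
  constructor
  · intro h1
    have h3 : a * g ^ 2 * a⁻¹ * (g ^ 2)⁻¹ ∈ N := by
      rw [← QuotientGroup.eq_one_iff]
      simp only [QuotientGroup.mk_mul, QuotientGroup.mk_inv, QuotientGroup.mk_pow]
      rw [h1]; group
    have h4 : a * g ^ 2 * a⁻¹ * (g ^ 2)⁻¹ ∈ zpowers (g ^ 2) :=
      mul_mem (h.F1 g a) (inv_mem (mem_zpowers _))
    by_contra hne
    have hs : a * g ^ 2 * a⁻¹ * (g ^ 2)⁻¹ ≠ 1 := by
      intro h5
      apply hne
      have : a * g ^ 2 = (a * g ^ 2 * a⁻¹ * (g ^ 2)⁻¹) * (g ^ 2 * a) := by group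
      rw [this, h5, one_mul]
    obtain ⟨r, hr, hr1, hr2⟩ := exists_inv h.two hs
    have h6 : r ∈ zpowers (g ^ 2) := (zpowers_le.mpr h4) hr
    have h7 : r ∈ N := (zpowers_le.mpr h3) hr
    exact hN (inv_unique ht h6 ht2 hr2 ht1 hr1 ▸ h7)
  · intro h1
    have := congrArg (QuotientGroup.mk : G → G ⧸ N) h1
    simpa only [QuotientGroup.mk_mul, QuotientGroup.mk_inv, QuotientGroup.mk_pow] using this

theorem mem_cent {a b : G} : a ∈ centralizer ({b} : Set G) ↔ a * b = b * a := by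
  rw [mem_centralizer_iff]
  simp only [Set.mem_singleton_iff, forall_eq]
  exact eq_comm

theorem cent_quot [Finite G] (h : IsC G) {g t : G} (ht : t ∈ zpowers (g ^ 2)) (ht1 : t ≠ 1)
    (ht2 : t ^ 2 = 1) (N : Subgroup G) [N.Normal] (hN : t ∉ N) :
    (centralizer ({(QuotientGroup.mk g : G ⧸ N) ^ 2} : Set (G ⧸ N))).comap
      (QuotientGroup.mk' N) = centralizer ({g ^ 2} : Set G) := by
  ext a
  rw [mem_comap, mem_cent, mem_cent]
  exact comm_quot h ht ht1 ht2 N hN a

theorem cent_quot_index [Finite G] (h : IsC G) {g t : G} (ht : t ∈ zpowers (g ^ 2)) (ht1 : t ≠ 1)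
    (ht2 : t ^ 2 = 1) (N : Subgroup G) [N.Normal] (hN : t ∉ N) :
    (centralizer ({(QuotientGroup.mk g : G ⧸ N) ^ 2} : Set (G ⧸ N))).index =
      (centralizer ({g ^ 2} : Set G)).index := by
  rw [← cent_quot h ht ht1 ht2 N hN]
  exact (index_comap_of_surjective _ (QuotientGroup.mk'_surjective N)).symm

/-- A nontrivial normal subgroup contains a nontrivial element of `Om G`. -/
theorem exists_om_mem [Finite G] (h2 : IsPGroup 2 G) (N : Subgroup G) [hN : N.Normal]
    (hne : N ≠ ⊥) : ∃ t ∈ N, t ≠ 1 ∧ t ∈ Om G := by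
  have : Fact (Nat.Prime 2) := ⟨Nat.prime_two⟩
  have hN2 : IsPGroup 2 N := h2.to_subgroup N
  have : Nontrivial N := (Subgroup.nontrivial_iff_ne_bot N).mpr hne
  have hdvd : 2 ∣ Nat.card N := by
    obtain ⟨n, hn0, hn⟩ := hN2.nontrivial_iff_card.mp inferInstance
    exact hn.symm ▸ dvd_pow_self _ (ne_of_gt hn0)
  have hconj : IsPGroup 2 (ConjAct G) := h2.of_equiv ConjAct.toConjAct
  obtain ⟨b, hb, hb1⟩ := hconj.exists_fixed_point_of_prime_dvd_card_of_fixed_point N
    hdvd (a := 1) (by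
      intro g
      exact smul_one g)
  have hbc : (b : G) ∈ center G := by
    rw [mem_center_iff]
    intro g
    have h3 := hb (ConjAct.toConjAct g)
    have h4 := congrArg (Subtype.val) h3
    rw [ConjAct.Subgroup.val_conj_smul, ConjAct.smul_def, ConjAct.ofConjAct_toConjAct] at h4
    calc g * b = (g * b * g⁻¹) * g := by group
      _ = b * g := by rw [h4]
  have hb1' : (b : G) ≠ 1 := by
    intro h5
    apply hb1
    ext
    exact h5.symm
  obtain ⟨t, ht, ht1, ht2⟩ := exists_inv h2 hb1'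
  exact ⟨t, (zpowers_le.mpr b.2) ht, ht1, (zpowers_le.mpr hbc) ht, ht2⟩

end Pool.Agent.Helper38.Core2
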