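import Mathlib
import Pool.Agent.Helper5.Core2.Defs
import Pool.Agent.Helper38.Core2.CCBasics

/-! `CC_index` for MP_fafe86_al. -/

set_option autoImplicit false

namespace Pool.Agent.Helper38.Core2

open Subgroup Pool.Agent.Helper5.Core2

universe u

section AZ

variable {G : Type*} [Group G]

/-- What `MinCE.quot` gives for `zpowers z`. -/
structure AZ (z : G) (A : Subgroup G) : Prop where
  sq_le : Sq G ≤ A
  comm : ∀ x ∈ A, ∀ y ∈ A, x * y * x⁻¹ * y⁻¹ ∈ zpowers z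
  index_le : A.index ≤ 4

theorem normal_zpowers {z : G} (hz : z ∈ center G) : (zpowers z).Normal := by
  refine ⟨fun n hn g => ?_⟩
  have h1 : n ∈ center G := (zpowers_le.mpr hz) hn
  have h2 : g * n * g⁻¹ = n := by
    rw [mem_center_iff.mp h1 g]; group
  rw [h2]; exact hn

theorem exists_AZ (h : MinCE G) {z : G} (hz : z ∈ Om G) (hz1 : z ≠ 1) :
    ∃ A : Subgroup G, AZ z A := by
  obtain ⟨A, h1, -, h3, h4⟩ := h.quot (zpowers z) (normal_zpowers hz.1)
    (fun hb => hz1 (zpowers_eq_bot.mp hb))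
  exact ⟨A, h1, h3, h4⟩

theorem sq_mem_Sq (g : G) : g ^ 2 ∈ Sq G := subset_closure ⟨g, rfl⟩

theorem AZ.le_cent (h : IsC G) {z g : G} {A : Subgroup G} (hA : AZ z A) (hz2 : z ^ 2 = 1)
    (hz : z ∉ zpowers (g ^ 2)) : A ≤ centralizer ({g ^ 2} : Set G) := by
  intro a ha
  rw [mem_cent]
  have h1 := hA.comm a ha (g ^ 2) (hA.sq_le (sq_mem_Sq g))
  have h2 : a * g ^ 2 * a⁻¹ * (g ^ 2)⁻¹ ∈ zpowers (g ^ 2) :=
    mul_mem (h.F1 g a) (inv_mem (mem_zpowers _))
  rcases zpowers_two hz2 h1 with h3 | h3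
  · have : a * g ^ 2 = (a * g ^ 2 * a⁻¹ * (g ^ 2)⁻¹) * (g ^ 2 * a) := by group
    rw [this, h3, one_mul]
  · rw [h3] at h2
    exact absurd h2 hz

theorem AZ.not_comm (h : MinCE G) {z : G} {A : Subgroup G} (hA : AZ z A) :
    ∃ c ∈ A, ∃ d ∈ A, c * d ≠ d * c := by
  by_contra hcon
  push Not at hcon
  exact h.notT ⟨A, hA.sq_le, hcon, hA.index_le⟩

theorem comm_ne_one {c d : G} (h : c * d ≠ d * c) : c * d * c⁻¹ * d⁻¹ ≠ 1 := by
  intro h1
  apply h
  have : c * d = (c * d * c⁻¹ * d⁻¹) * (d * c) := by group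
  rw [this, h1, one_mul]

theorem AZ.eq_of (h : MinCE G) {z z' : G} {A : Subgroup G} (hA : AZ z A) (hA' : AZ z' A)
    (hz2 : z ^ 2 = 1) (hz2' : z' ^ 2 = 1) : z = z' := by
  obtain ⟨c, hc, d, hd, hcd⟩ := hA.not_comm h
  have h1 := comm_ne_one hcd
  rcases zpowers_two hz2 (hA.comm c hc d hd) with h3 | h3
  · exact absurd h3 h1
  · rcases zpowers_two hz2' (hA'.comm c hc d hd) with h4 | h4
    · exact absurd h4 h1
    · rw [← h3, h4]

theorem index_le_two_of_lt [Finite G] {B S : Subgroup G} (h : B < S) (hB : B.index ≤ 4) :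
    S.index ≤ 2 := by
  have h1 := relIndex_mul_index h.le
  have h2 : B.relIndex S ≠ 1 := by
    intro h3
    exact h.not_ge (relIndex_eq_one.mp h3)
  have h3 : B.index ≠ 0 := index_ne_zero_of_finite
  have h4 : B.relIndex S ≠ 0 := by
    intro h5
    rw [h5, zero_mul] at h1
    exact h3 h1.symm
  have h5 : 2 ≤ B.relIndex S := by omega
  by_contra h6
  have h7 : 3 ≤ S.index := by omega
  have : 2 * 3 ≤ B.relIndex S * S.index := Nat.mul_le_mul h5 h7
  omega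

theorem eq_of_le_of_index [Finite G] {S M : Subgroup G} (h : S ≤ M) (hS : S.index ≤ 2)
    (hM : M ≠ ⊤) : M = S ∧ M.index = 2 := by
  have h1 := relIndex_mul_index h
  have h3 : S.index ≠ 0 := index_ne_zero_of_finite
  have h4 : M.index ≠ 0 := index_ne_zero_of_finite
  have h5 : M.index ≠ 1 := fun h6 => hM (index_eq_one.mp h6)
  have h6 : S.relIndex M ≠ 0 := by
    intro h5
    rw [h5, zero_mul] at h1
    exact h3 h1.symm
  have h7 : S.relIndex M = 1 := by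
    by_contra h8
    have h9 : 2 ≤ S.relIndex M := by omega
    have h10 : 2 ≤ M.index := by omega
    have : 2 * 2 ≤ S.relIndex M * M.index := Nat.mul_le_mul h9 h10
    omega
  have h8 : M ≤ S := relIndex_eq_one.mp h7
  refine ⟨le_antisymm h8 h, ?_⟩
  rw [h7, one_mul] at h1
  omega

theorem cent_ne_top {g : G} (hg : g ^ 2 ∉ center G) : centralizer ({g ^ 2} : Set G) ≠ ⊤ := by
  intro h1
  apply hg
  rw [mem_center_iff]
  intro a
  have : a ∈ centralizer ({g ^ 2} : Set G) := h1 ▸ mem_top a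
  exact mem_cent.mp this

theorem AZ.sup [Finite G] (h : MinCE G) {z z' g : G} {A A' : Subgroup G} (hA : AZ z A)
    (hA' : AZ z' A') (hz2 : z ^ 2 = 1) (hz2' : z' ^ 2 = 1) (hne : z ≠ z')
    (hz : z ∉ zpowers (g ^ 2)) (hz' : z' ∉ zpowers (g ^ 2)) (hg : g ^ 2 ∉ center G) :
    centralizer ({g ^ 2} : Set G) = A ⊔ A' ∧ (centralizer ({g ^ 2} : Set G)).index = 2 := by
  have hle : A ⊔ A' ≤ centralizer ({g ^ 2} : Set G) :=
    sup_le (hA.le_cent h.c hz2 hz) (hA'.le_cent h.c hz2' hz')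
  have hAne : A ≠ A' := by
    rintro rfl
    exact hne (hA.eq_of h hA' hz2 hz2')
  have hidx : (A ⊔ A').index ≤ 2 := by
    by_cases h1 : A' ≤ A
    · have h2 : A' < A := lt_of_le_of_ne h1 (Ne.symm hAne)
      have h3 : A ⊔ A' = A := sup_eq_left.mpr h1
      rw [h3]
      exact index_le_two_of_lt h2 hA'.index_le
    · have h2 : A < A ⊔ A' := lt_of_le_of_ne le_sup_left (fun h3 => h1 (by
        rw [h3]; exact le_sup_right))
      exact index_le_two_of_lt h2 hA.index_le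
  exact eq_of_le_of_index hle hidx (cent_ne_top hg)

theorem two_om [Finite G] (h4 : 4 ≤ Nat.card (Om G)) (c : G) :
    ∃ z z' : G, z ∈ Om G ∧ z' ∈ Om G ∧ z ≠ z' ∧ z ∉ zpowers c ∧ z' ∉ zpowers c := by
  classical
  by_contra hcon
  push Not at hcon
  obtain ⟨t, ht⟩ : ∃ t : G, ∀ a ∈ Om G, a ∈ zpowers c → a = 1 ∨ a = t := by
    by_cases hex : ∃ t ∈ Om G, t ∈ zpowers c ∧ t ≠ 1
    · obtain ⟨t, ht, htc, ht1⟩ := hex
      refine ⟨t, fun a ha hac => ?_⟩
      by_cases ha1 : a = 1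
      · exact Or.inl ha1
      · exact Or.inr (inv_unique hac htc ha.2 ht.2 ha1 ht1)
    · push Not at hex
      exact ⟨1, fun a ha hac => Or.inl (hex a ha hac)⟩
  obtain ⟨s, hs⟩ : ∃ s : G, ∀ a ∈ Om G, a ∉ zpowers c → a = s := by
    by_cases hex : ∃ s ∈ Om G, s ∉ zpowers c
    · obtain ⟨s, hs, hsc⟩ := hex
      refine ⟨s, fun a ha hac => ?_⟩
      by_contra hne
      exact hsc (hcon a s ha hs hne hac)
    · push Not at hex
      exact ⟨1, fun a ha hac => absurd (hex a ha) hac⟩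
  have hsub : (Om G : Set G) ⊆ (({1, t, s} : Finset G) : Set G) := by
    intro a ha
    simp only [Finset.coe_insert, Finset.coe_singleton, Set.mem_insert_iff, Set.mem_singleton_iff]
    by_cases hac : a ∈ zpowers c
    · rcases ht a ha hac with h | h
      · exact Or.inl h
      · exact Or.inr (Or.inl h)
    · exact Or.inr (Or.inr (hs a ha hac))
  have h5 := Set.ncard_le_ncard hsub (Finset.finite_toSet _)
  rw [Set.ncard_coe_finset] at h5
  have h6 : ({1, t, s} : Finset G).card ≤ 3 := Finset.card_le_three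
  have h7 : Nat.card (Om G) = (Om G : Set G).ncard := rfl
  omega

theorem exists_not_mem_two (H K : Subgroup G) (hH : H ≠ ⊤) (hK : K ≠ ⊤) :
    ∃ v, v ∉ H ∧ v ∉ K := by
  by_contra hcon
  push Not at hcon
  have h1 : ∃ a, a ∉ H := by
    by_contra h2
    push Not at h2
    exact hH (eq_top_iff.mpr fun a _ => h2 a)
  have h2 : ∃ b, b ∉ K := by
    by_contra h2
    push Not at h2
    exact hK (eq_top_iff.mpr fun a _ => h2 a)
  obtain ⟨a, ha⟩ := h1
  obtain ⟨b, hb⟩ := h2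
  have haK := hcon a ha
  have hbH : b ∈ H := by
    by_contra h3
    exact hb (hcon b h3)
  by_cases hab : a * b ∈ H
  · exact ha (by simpa using mul_mem hab (inv_mem hbH))
  · exact hb (by simpa using mul_mem (inv_mem haK) (hcon _ hab))

end AZ

section Main

/-- the conjunction in `MC` -/
def Last {Q : Type*} [Group Q] (z u c d : Q) : Prop :=
  (u ^ 2 = 1 ∧ (u * c) ^ 2 = z ∧ (u * d) ^ 2 = z ∧ (u * (c * d)) ^ 2 = z) ∨
  (u ^ 2 = z ∧ (u * c) ^ 2 = 1 ∧ (u * d) ^ 2 = z ∧ (u * (c * d)) ^ 2 = z) ∨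
  (u ^ 2 = z ∧ (u * c) ^ 2 = z ∧ (u * d) ^ 2 = 1 ∧ (u * (c * d)) ^ 2 = z) ∨
  (u ^ 2 = z ∧ (u * c) ^ 2 = z ∧ (u * d) ^ 2 = z ∧ (u * (c * d)) ^ 2 = 1)

theorem cent_ne_quot {G : Type*} [Group G] [Finite G] (h : IsC G) {x y t s : G}
    (ht : t ∈ zpowers (x ^ 2)) (ht1 : t ≠ 1) (ht2 : t ^ 2 = 1)
    (hs : s ∈ zpowers (y ^ 2)) (hs1 : s ≠ 1) (hs2 : s ^ 2 = 1)
    (hne : centralizer ({x ^ 2} : Set G) ≠ centralizer ({y ^ 2} : Set G))
    (N : Subgroup G) [N.Normal] (hN : t ∉ N) (hN' : s ∉ N) :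
    centralizer ({(QuotientGroup.mk x : G ⧸ N) ^ 2} : Set (G ⧸ N)) ≠
      centralizer ({(QuotientGroup.mk y : G ⧸ N) ^ 2} : Set (G ⧸ N)) := by
  intro h1
  apply hne
  rw [← cent_quot h ht ht1 ht2 N hN, ← cent_quot h hs hs1 hs2 N hN', h1]

theorem CC_index_of
    (om_card : ∀ {G : Type u} [Group G] [Finite G], MinCE G → 4 ≤ Nat.card (Om G))
    (exists_mono : ∀ {G : Type u} [Group G] [Finite G] (K : Subgroup G), K.Normal →
      ∀ {z : G}, z ∉ K → ∃ N : Subgroup G, ∃ _ : N.Normal, K ≤ N ∧ z ∉ N ∧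
        Mono (QuotientGroup.mk z : G ⧸ N))
    (toQuotient : ∀ {G : Type u} [Group G], IsC G → ∀ (N : Subgroup G) [N.Normal], IsC (G ⧸ N))
    (MC : ∀ {G : Type u} [Group G] [Finite G], IsC G → ∀ {z : G}, Mono z → ∀ {x c d : G},
      x ^ 2 ∉ center G → c ∈ CC G → d ∈ CC G → c * d ≠ d * c →
      (CC G).index = 2 ∧
      (∀ g ∈ center G, g = 1 ∨ g = z) ∧
      (∀ u ∉ CC G, u ^ 2 = 1 ∨ u ^ 2 = z) ∧
      (∀ s ∈ CC G, s * c = c * s → s * d = d * s → ∀ g ∈ CC G, s * g = g * s) ∧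
      (∀ u ∉ CC G, ∀ s ∈ CC G, (∀ g ∈ CC G, s * g = g * s) → u * s * u⁻¹ = s⁻¹) ∧
      (∀ u ∉ CC G,
        (u ^ 2 = 1 ∧ (u * c) ^ 2 = z ∧ (u * d) ^ 2 = z ∧ (u * (c * d)) ^ 2 = z) ∨
        (u ^ 2 = z ∧ (u * c) ^ 2 = 1 ∧ (u * d) ^ 2 = z ∧ (u * (c * d)) ^ 2 = z) ∨
        (u ^ 2 = z ∧ (u * c) ^ 2 = z ∧ (u * d) ^ 2 = 1 ∧ (u * (c * d)) ^ 2 = z) ∨
        (u ^ 2 = z ∧ (u * c) ^ 2 = z ∧ (u * d) ^ 2 = z ∧ (u * (c * d)) ^ 2 = 1)))
    (MT : ∀ {G : Type u} [Group G] [Finite G], IsC G → ∀ {z : G}, Mono z → ∀ {x y u : G},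
      (centralizer ({x ^ 2} : Set G)).index = 2 →
      (centralizer ({y ^ 2} : Set G)).index = 2 →
      centralizer ({x ^ 2} : Set G) ≠ centralizer ({y ^ 2} : Set G) →
      u * x ^ 2 ≠ x ^ 2 * u → u * y ^ 2 ≠ y ^ 2 * u → u ^ 2 = z)
    {G : Type u} [Group G] [Finite G] (h : MinCE G) {x : G} (hx : x ^ 2 ∉ center G) :
    (CC G).index = 2 := by
  have h4 := om_card h
  -- index two
  have hidx : ∀ g : G, g ^ 2 ∉ center G → (centralizer ({g ^ 2} : Set G)).index = 2 := by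
    intro g hg
    obtain ⟨z, z', hz, hz', hne, hzg, hzg'⟩ := two_om h4 (g ^ 2)
    obtain ⟨A, hA⟩ := exists_AZ h hz (fun h1 => hzg (h1 ▸ one_mem _))
    obtain ⟨A', hA'⟩ := exists_AZ h hz' (fun h1 => hzg' (h1 ▸ one_mem _))
    exact (hA.sup h hA' hz.2 hz'.2 hne hzg hzg' hg).2
  -- all the centralizers are equal
  have hall : ∀ y : G, y ^ 2 ∉ center G →
      centralizer ({x ^ 2} : Set G) = centralizer ({y ^ 2} : Set G) := by
    intro y hy
    by_contra hne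
    have hx1 : x ^ 2 ≠ 1 := fun h1 => hx (h1 ▸ one_mem _)
    have hy1 : y ^ 2 ≠ 1 := fun h1 => hy (h1 ▸ one_mem _)
    obtain ⟨z1, hz1x, hz11, hz1⟩ := exists_om h.c hx1
    obtain ⟨z2, hz2y, hz21, hz2⟩ := exists_om h.c hy1
    -- at most one element of `Om` outside
    have noTwo : ∀ z ∈ Om G, ∀ z' ∈ Om G, z ∉ zpowers (x ^ 2) → z ∉ zpowers (y ^ 2) →
        z' ∉ zpowers (x ^ 2) → z' ∉ zpowers (y ^ 2) → z = z' := by
      intro z hz z' hz' ha hb ha' hb'
      by_contra hzz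
      obtain ⟨A, hA⟩ := exists_AZ h hz (fun h1 => ha (h1 ▸ one_mem _))
      obtain ⟨A', hA'⟩ := exists_AZ h hz' (fun h1 => ha' (h1 ▸ one_mem _))
      exact hne ((hA.sup h hA' hz.2 hz'.2 hzz ha ha' hx).1.trans
        (hA.sup h hA' hz.2 hz'.2 hzz hb hb' hy).1.symm)
    have hz12 : z1 ≠ z2 := by
      rintro rfl
      obtain ⟨z, z', hz, hz', hzz, hzg, hzg'⟩ := two_om h4 (x ^ 2)
      have haux : ∀ w ∈ Om G, w ∉ zpowers (x ^ 2) → w ∉ zpowers (y ^ 2) := by
        intro w hw hwx hwy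
        by_cases hw1 : w = 1
        · exact hwx (hw1 ▸ one_mem _)
        · exact hwx (inv_unique hwy hz2y hw.2 hz2.2 hw1 hz21 ▸ hz1x)
      exact hzz (noTwo z hz z' hz' hzg (haux z hz hzg) hzg' (haux z' hz' hzg'))
    have hz2x : z2 ∉ zpowers (x ^ 2) := fun h1 =>
      hz12 (inv_unique hz1x h1 hz1.2 hz2.2 hz11 hz21)
    have hz1y : z1 ∉ zpowers (y ^ 2) := fun h1 =>
      hz12 (inv_unique h1 hz2y hz1.2 hz2.2 hz11 hz21)
    have hz1i : z1⁻¹ = z1 := by
      rw [inv_eq_iff_mul_eq_one, ← pow_two]; exact hz1.2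
    have hz2i : z2⁻¹ = z2 := by
      rw [inv_eq_iff_mul_eq_one, ← pow_two]; exact hz2.2
    obtain ⟨z3, hz3⟩ : ∃ z3, z3 = z1 * z2 := ⟨_, rfl⟩
    have hz3om : z3 ∈ Om G := hz3 ▸ mul_mem hz1 hz2
    have e1 : z3 * z2 = z1 := by
      rw [hz3, mul_assoc, ← pow_two, hz2.2, mul_one]
    have e2 : z1 * z3 = z2 := by
      rw [hz3, ← mul_assoc, ← pow_two, hz1.2, one_mul]
    have hz31 : z3 ≠ 1 := by
      intro h1
      rw [h1, one_mul] at e1
      exact hz12 e1.symm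
    have hz3x : z3 ∉ zpowers (x ^ 2) := fun h1 => hz2x (e2 ▸ mul_mem hz1x h1)
    have hz3y : z3 ∉ zpowers (y ^ 2) := fun h1 => hz1y (e1 ▸ mul_mem h1 hz2y)
    have hlist : ∀ z ∈ Om G, z = 1 ∨ z = z1 ∨ z = z2 ∨ z = z3 := by
      intro z hz
      by_cases h1 : z = 1
      · exact Or.inl h1
      by_cases hzx : z ∈ zpowers (x ^ 2)
      · exact Or.inr (Or.inl (inv_unique hzx hz1x hz.2 hz1.2 h1 hz11))
      by_cases hzy : z ∈ zpowers (y ^ 2)
      · exact Or.inr (Or.inr (Or.inl (inv_unique hzy hz2y hz.2 hz2.2 h1 hz21)))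
      exact Or.inr (Or.inr (Or.inr (noTwo z hz z3 hz3om hzx hzy hz3x hz3y)))
    -- the three quotients
    obtain ⟨N1, hN1, hK1, hz1N1, hM1⟩ := exists_mono (zpowers z2) (normal_zpowers hz2.1)
      (z := z1) (fun h1 => (zpowers_two hz2.2 h1).elim hz11 hz12)
    obtain ⟨N2, hN2, hK2, hz2N2, hM2⟩ := exists_mono (zpowers z1) (normal_zpowers hz1.1)
      (z := z2) (fun h1 => (zpowers_two hz1.2 h1).elim hz21 (Ne.symm hz12))
    obtain ⟨N3, hN3, hK3, hz1N3, hM3⟩ := exists_mono (zpowers z3) (normal_zpowers hz3om.1)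
      (z := z1) (fun h1 => (zpowers_two hz3om.2 h1).elim hz11 (fun h2 => by
        rw [← h2, ← pow_two, hz1.2] at e2
        exact hz21 e2.symm))
    have hz2N1 : z2 ∈ N1 := hK1 (mem_zpowers _)
    have hz1N2 : z1 ∈ N2 := hK2 (mem_zpowers _)
    have hz3N3 : z3 ∈ N3 := hK3 (mem_zpowers _)
    have hz3N1 : z3 ∉ N1 := fun h1 => hz1N1 (e1 ▸ mul_mem h1 hz2N1)
    have hz3N2 : z3 ∉ N2 := fun h1 => hz2N2 (e2 ▸ mul_mem hz1N2 h1)
    have hz2N3 : z2 ∉ N3 := fun h1 => hz1N3 (e1 ▸ mul_mem hz3N3 h1)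
    have hC1 : IsC (G ⧸ N1) := toQuotient h.c N1
    have hC2 : IsC (G ⧸ N2) := toQuotient h.c N2
    have hC3 : IsC (G ⧸ N3) := toQuotient h.c N3
    have hbot : ∀ g : G, g ∈ N1 → g ∈ N2 → g = 1 := by
      intro g hg1 hg2
      by_contra hg
      have hb : N1 ⊓ N2 ≠ ⊥ := by
        intro hb
        have : g ∈ N1 ⊓ N2 := ⟨hg1, hg2⟩
        rw [hb] at this
        exact hg (mem_bot.mp this)
      obtain ⟨t, ht, ht1, htom⟩ := exists_om_mem h.c.two (N1 ⊓ N2) hb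
      rcases hlist t htom with h1 | h1 | h1 | h1
      · exact ht1 h1
      · exact hz1N1 (h1 ▸ ht.1)
      · exact hz2N2 (h1 ▸ ht.2)
      · exact hz3N1 (h1 ▸ ht.1)
    have hix := hidx x hx
    have hiy := hidx y hy
    obtain ⟨A3, hA3⟩ := exists_AZ h hz3om hz31
    have hA3x := hA3.le_cent h.c hz3om.2 hz3x
    have hA3y := hA3.le_cent h.c hz3om.2 hz3y
    -- an element outside both centralizers does not have square `z3`
    have fin : ∀ u : G, u ∉ centralizer ({x ^ 2} : Set G) → u ∉ centralizer ({y ^ 2} : Set G) →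
        u ^ 2 = z3 → False := by
      intro u hux huy hu
      have h1 := MT hC3 hM3 (x := (QuotientGroup.mk x : G ⧸ N3)) (y := QuotientGroup.mk y)
        (u := QuotientGroup.mk u)
        ((cent_quot_index h.c hz1x hz11 hz1.2 N3 hz1N3).trans hix)
        ((cent_quot_index h.c hz2y hz21 hz2.2 N3 hz2N3).trans hiy)
        (cent_ne_quot h.c hz1x hz11 hz1.2 hz2y hz21 hz2.2 hne N3 hz1N3 hz2N3)
        (fun h2 => hux (mem_cent.mpr ((comm_quot h.c hz1x hz11 hz1.2 N3 hz1N3 u).mp h2)))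
        (fun h2 => huy (mem_cent.mpr ((comm_quot h.c hz2y hz21 hz2.2 N3 hz2N3 u).mp h2)))
      rw [← QuotientGroup.mk_pow, hu, (QuotientGroup.eq_one_iff z3).mpr hz3N3] at h1
      exact hz1N3 ((QuotientGroup.eq_one_iff z1).mp h1.symm)
    -- combining the information modulo `N1` and `N2`
    have key : ∀ u : G, u ∉ centralizer ({x ^ 2} : Set G) → u ∉ centralizer ({y ^ 2} : Set G) →
        (QuotientGroup.mk u : G ⧸ N1) ^ 2 = QuotientGroup.mk z1 →
        (QuotientGroup.mk u : G ⧸ N2) ^ 2 = QuotientGroup.mk z2 → False := by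
      intro u hux huy h1 h2
      apply fin u hux huy
      rw [← QuotientGroup.mk_pow, QuotientGroup.eq] at h1 h2
      have h3 : (u ^ 2)⁻¹ * z3 ∈ N1 := by
        rw [hz3, ← mul_assoc]
        exact mul_mem h1 hz2N1
      have h5 : (u ^ 2)⁻¹ * z3 ∈ N2 := by
        have h6 : z3 = z2 * z1 := by
          rw [hz3]
          exact mem_center_iff.mp hz2.1 z1
        rw [h6, ← mul_assoc]
        exact mul_mem h2 hz1N2
      have h7 := hbot _ h3 h5
      exact inv_mul_eq_one.mp h7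
    obtain ⟨v, hvx, hvy⟩ := exists_not_mem_two _ _ (cent_ne_top hx) (cent_ne_top hy)
    by_cases hcase : ∃ w : G, ∃ a ∈ A3, a * w ^ 2 ≠ w ^ 2 * a
    · -- case a
      obtain ⟨w, a, ha, haw⟩ := hcase
      have haw' : a ∉ centralizer ({w ^ 2} : Set G) := fun h1 => haw (mem_cent.mp h1)
      have hz3w : z3 ∈ zpowers (w ^ 2) := by
        by_contra h1
        exact haw' (hA3.le_cent h.c hz3om.2 h1 ha)
      have hw : w ^ 2 ∉ center G := fun h1 => haw (mem_center_iff.mp h1 a)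
      have hiw := hidx w hw
      have hnxw : centralizer ({x ^ 2} : Set G) ≠ centralizer ({w ^ 2} : Set G) :=
        fun h1 => haw' (h1 ▸ hA3x ha)
      have hnyw : centralizer ({y ^ 2} : Set G) ≠ centralizer ({w ^ 2} : Set G) :=
        fun h1 => haw' (h1 ▸ hA3y ha)
      obtain ⟨u, hux, huy, huw⟩ : ∃ u, u ∉ centralizer ({x ^ 2} : Set G) ∧
          u ∉ centralizer ({y ^ 2} : Set G) ∧ u ∉ centralizer ({w ^ 2} : Set G) := by
        by_cases hvw : v ∈ centralizer ({w ^ 2} : Set G)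
        · refine ⟨v * a, ?_, ?_, ?_⟩
          · intro h1
            exact hvx ((mul_mem_cancel_right (hA3x ha)).mp h1)
          · intro h1
            exact hvy ((mul_mem_cancel_right (hA3y ha)).mp h1)
          · intro h1
            exact haw' ((mul_mem_cancel_left hvw).mp h1)
        · exact ⟨v, hvx, hvy, hvw⟩
      refine key u hux huy ?_ ?_
      · exact MT hC1 hM1 (x := (QuotientGroup.mk x : G ⧸ N1)) (y := QuotientGroup.mk w)
          (u := QuotientGroup.mk u)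
          ((cent_quot_index h.c hz1x hz11 hz1.2 N1 hz1N1).trans hix)
          ((cent_quot_index h.c hz3w hz31 hz3om.2 N1 hz3N1).trans hiw)
          (cent_ne_quot h.c hz1x hz11 hz1.2 hz3w hz31 hz3om.2 hnxw N1 hz1N1 hz3N1)
          (fun h2 => hux (mem_cent.mpr ((comm_quot h.c hz1x hz11 hz1.2 N1 hz1N1 u).mp h2)))
          (fun h2 => huw (mem_cent.mpr ((comm_quot h.c hz3w hz31 hz3om.2 N1 hz3N1 u).mp h2)))
      · exact MT hC2 hM2 (x := (QuotientGroup.mk y : G ⧸ N2)) (y := QuotientGroup.mk w)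
          (u := QuotientGroup.mk u)
          ((cent_quot_index h.c hz2y hz21 hz2.2 N2 hz2N2).trans hiy)
          ((cent_quot_index h.c hz3w hz31 hz3om.2 N2 hz3N2).trans hiw)
          (cent_ne_quot h.c hz2y hz21 hz2.2 hz3w hz31 hz3om.2 hnyw N2 hz2N2 hz3N2)
          (fun h2 => huy (mem_cent.mpr ((comm_quot h.c hz2y hz21 hz2.2 N2 hz2N2 u).mp h2)))
          (fun h2 => huw (mem_cent.mpr ((comm_quot h.c hz3w hz31 hz3om.2 N2 hz3N2 u).mp h2)))
    · -- case b
      push Not at hcase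
      obtain ⟨c, hc, d, hd, hcd⟩ := hA3.not_comm h
      have hcdz : c * d * c⁻¹ * d⁻¹ = z3 :=
        (zpowers_two hz3om.2 (hA3.comm c hc d hd)).resolve_left (comm_ne_one hcd)
      have hA3CC : ∀ (N : Subgroup G) [N.Normal], ∀ a ∈ A3, (QuotientGroup.mk a : G ⧸ N) ∈ CC (G ⧸ N) := by
        intro N _ a ha
        rw [CC, mem_centralizer_iff]
        rintro _ ⟨g, rfl⟩
        induction g using QuotientGroup.induction_on with
        | H g =>
          have h1 := congrArg (QuotientGroup.mk : G → G ⧸ N) (hcase g a ha)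
          simpa only [QuotientGroup.mk_mul, QuotientGroup.mk_pow] using h1.symm
      have hncomm : ∀ (N : Subgroup G) [N.Normal], z3 ∉ N →
          (QuotientGroup.mk c : G ⧸ N) * QuotientGroup.mk d ≠
            QuotientGroup.mk d * QuotientGroup.mk c := by
        intro N _ hN h1
        apply hN
        rw [← hcdz, ← QuotientGroup.eq_one_iff]
        simp only [QuotientGroup.mk_mul, QuotientGroup.mk_inv]
        rw [h1]; group
      have hcen : ∀ (N : Subgroup G) [N.Normal] (g t : G), t ∈ zpowers (g ^ 2) → t ≠ 1 →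
          t ^ 2 = 1 → t ∉ N → v ∉ centralizer ({g ^ 2} : Set G) →
          (QuotientGroup.mk v : G ⧸ N) * (QuotientGroup.mk g : G ⧸ N) ^ 2 ≠
            (QuotientGroup.mk g : G ⧸ N) ^ 2 * (QuotientGroup.mk v : G ⧸ N) := by
        intro N _ g t ht ht1 ht2 hN hv h1
        exact hv (mem_cent.mpr ((comm_quot h.c ht ht1 ht2 N hN v).mp h1))
      have hnc1 := hcen N1 x z1 hz1x hz11 hz1.2 hz1N1 hvx
      have hnc2 := hcen N2 y z2 hz2y hz21 hz2.2 hz2N2 hvy
      have m1 := (MC hC1 hM1 (x := (QuotientGroup.mk x : G ⧸ N1))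
        (fun h1 => hnc1 (mem_center_iff.mp h1 _)) (hA3CC N1 c hc) (hA3CC N1 d hd)
        (hncomm N1 hz3N1)).2.2.2.2.2 (QuotientGroup.mk v)
        (fun h1 => hnc1 ((mem_centralizer_iff.mp h1 _ ⟨_, rfl⟩).symm))
      have m2 := (MC hC2 hM2 (x := (QuotientGroup.mk y : G ⧸ N2))
        (fun h1 => hnc2 (mem_center_iff.mp h1 _)) (hA3CC N2 c hc) (hA3CC N2 d hd)
        (hncomm N2 hz3N2)).2.2.2.2.2 (QuotientGroup.mk v)
        (fun h1 => hnc2 ((mem_centralizer_iff.mp h1 _ ⟨_, rfl⟩).symm))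
      simp only [← QuotientGroup.mk_mul] at m1 m2
      have hcx : v * c ∉ centralizer ({x ^ 2} : Set G) := fun h1 =>
        hvx ((mul_mem_cancel_right (hA3x hc)).mp h1)
      have hcy : v * c ∉ centralizer ({y ^ 2} : Set G) := fun h1 =>
        hvy ((mul_mem_cancel_right (hA3y hc)).mp h1)
      have hdx : v * d ∉ centralizer ({x ^ 2} : Set G) := fun h1 =>
        hvx ((mul_mem_cancel_right (hA3x hd)).mp h1)
      have hdy : v * d ∉ centralizer ({y ^ 2} : Set G) := fun h1 =>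
        hvy ((mul_mem_cancel_right (hA3y hd)).mp h1)
      rcases m1 with ⟨a1, a2, a3, a4⟩ | ⟨a1, a2, a3, a4⟩ | ⟨a1, a2, a3, a4⟩ | ⟨a1, a2, a3, a4⟩ <;>
      rcases m2 with ⟨b1, b2, b3, b4⟩ | ⟨b1, b2, b3, b4⟩ | ⟨b1, b2, b3, b4⟩ | ⟨b1, b2, b3, b4⟩ <;>
      first
        | exact key v hvx hvy a1 b1
        | exact key (v * c) hcx hcy a2 b2
        | exact key (v * d) hdx hdy a3 b3
  have hCC : CC G = centralizer ({x ^ 2} : Set G) := by
    ext a
    rw [CC, mem_centralizer_iff, mem_cent]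
    constructor
    · intro h1
      exact (h1 _ ⟨x, rfl⟩).symm
    · rintro h1 _ ⟨g, rfl⟩
      by_cases hg : g ^ 2 ∈ center G
      · exact (mem_center_iff.mp hg a).symm
      · have : a ∈ centralizer ({g ^ 2} : Set G) := hall g hg ▸ mem_cent.mpr h1
        exact (mem_cent.mp this).symm
  rw [hCC]
  exact hidx x hx

end Main

end Pool.Agent.Helper38.Core2
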